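import Mathlib

/-! The additive large sieve inequality with a logarithmic loss. -/

namespace Pool.Agent.Lib.LargeSieve

open Finset Real

noncomputable def ee (x : ℝ) : ℂ := Complex.exp (Complex.I * ((2 * π * x : ℝ) : ℂ))

lemma ee_add (x y : ℝ) : ee (x + y) = ee x * ee y := by
  simp only [ee]
  rw [← Complex.exp_add]
  congr 1
  push_cast
  ring

lemma ee_zero : ee 0 = 1 := by simp [ee]

lemma ee_int (n : ℤ) : ee n = 1 := by
  simp only [ee]
  rw [Complex.exp_eq_one_iff]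
  exact ⟨n, by push_cast; ring⟩

lemma norm_ee (x : ℝ) : ‖ee x‖ = 1 := by
  simp only [ee]
  rw [mul_comm]
  exact Complex.norm_exp_ofReal_mul_I _

lemma conj_ee (x : ℝ) : (starRingEnd ℂ) (ee x) = ee (-x) := by
  simp only [ee]
  rw [← Complex.exp_conj, map_mul, Complex.conj_ofReal, Complex.conj_I]
  congr 1
  push_cast
  ring

lemma ee_nat_mul (n : ℕ) (x : ℝ) : ee (n * x) = ee x ^ n := by
  induction n with
  | zero => simp [ee_zero]
  | succ n ih => rw [pow_succ, ← ih, ← ee_add]; congr 1; push_cast; ring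

lemma ee_fract (x : ℝ) : ee (Int.fract x) = ee x := by
  conv_rhs => rw [← Int.floor_add_fract x, ee_add, ee_int, one_mul]

lemma norm_ee_sub_one (t : ℝ) (h0 : 0 ≤ t) (h1 : t ≤ 1) : 4 * min t (1 - t) ≤ ‖ee t - 1‖ := by
  simp only [ee]
  rw [Complex.norm_exp_I_mul_ofReal_sub_one]
  have h2 : 2 * π * t / 2 = π * t := by ring
  rw [h2, Real.norm_eq_abs]
  have hpi := Real.pi_pos
  refine le_trans ?_ (le_abs_self _)
  rcases le_total t (1 / 2) with h | h
  · have h3 := Real.mul_le_sin (x := π * t) (by positivity) (by nlinarith)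
    have h4 : 2 / π * (π * t) = 2 * t := by field_simp
    have := min_le_left t (1 - t)
    linarith
  · have h3 := Real.mul_le_sin (x := π * (1 - t)) (by nlinarith) (by nlinarith)
    have h4 : 2 / π * (π * (1 - t)) = 2 * (1 - t) := by field_simp
    have h5 : Real.sin (π * (1 - t)) = Real.sin (π * t) := by
      rw [mul_sub, mul_one, Real.sin_pi_sub]
    have := min_le_right t (1 - t)
    linarith

lemma geom_bound (x : ℝ) (hx : Int.fract x ≠ 0) (M : ℕ) :
    ‖∑ n ∈ range M, ee (n * x)‖ ≤ 1 / (2 * Int.fract x) + 1 / (2 * Int.fract (-x)) := by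
  have h0 : 0 < Int.fract x := lt_of_le_of_ne (Int.fract_nonneg x) hx.symm
  have h1 : Int.fract x < 1 := Int.fract_lt_one x
  rw [Int.fract_neg hx]
  set t := Int.fract x with ht
  have h2 := norm_ee_sub_one t h0.le h1.le
  rw [ht, ee_fract, ← ht] at h2
  have hm : 0 < min t (1 - t) := lt_min h0 (by linarith)
  have hne : ee x ≠ 1 := by
    intro h
    rw [h] at h2
    simp only [sub_self, norm_zero] at h2
    linarith
  simp only [ee_nat_mul]
  rw [geom_sum_eq hne, norm_div]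
  have h3 : ‖ee x ^ M - 1‖ ≤ 2 := by
    refine (norm_sub_le _ _).trans ?_
    rw [norm_pow, norm_ee]
    norm_num
  calc ‖ee x ^ M - 1‖ / ‖ee x - 1‖ ≤ 2 / (4 * min t (1 - t)) := by gcongr
    _ = 1 / (2 * min t (1 - t)) := by field_simp; norm_num
    _ ≤ _ := by
      have h4 : 0 < 1 / (2 * t) := by positivity
      have h5 : 0 < 1 / (2 * (1 - t)) := by
        have : 0 < 1 - t := by linarith
        positivity
      rcases min_choice t (1 - t) with h | h <;> rw [h] <;> linarith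

lemma spaced_sum {R : Type} [DecidableEq R] (T : Finset R) (β : R → ℝ) (δ : ℝ) (hδ : 0 < δ)
    (hδ1 : δ ≤ 1) (h0 : ∀ s ∈ T, δ ≤ Int.fract (β s))
    (hsep : ∀ s ∈ T, ∀ s' ∈ T, s ≠ s' → δ ≤ Int.fract (β s - β s')) :
    ∑ s ∈ T, 1 / Int.fract (β s) ≤ 1 / δ * (1 + Real.log (1 / δ)) := by
  set j : R → ℕ := fun s => ⌊Int.fract (β s) / δ⌋₊ with hj
  set J := ⌊1 / δ⌋₊ with hJ
  have hj1 : ∀ s ∈ T, 1 ≤ j s := fun s hs =>
    Nat.le_floor (by rw [Nat.cast_one, le_div_iff₀ hδ, one_mul]; exact h0 s hs)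
  have hjJ : ∀ s ∈ T, j s ≤ J := fun s _ =>
    Nat.floor_le_floor (by gcongr; exact (Int.fract_lt_one _).le)
  have hlo : ∀ s, (j s : ℝ) * δ ≤ Int.fract (β s) := fun s => by
    rw [← le_div_iff₀ hδ]
    exact Nat.floor_le (div_nonneg (Int.fract_nonneg _) hδ.le)
  have hhi : ∀ s, Int.fract (β s) < (j s + 1 : ℝ) * δ := fun s => by
    rw [← div_lt_iff₀ hδ]
    exact Nat.lt_floor_add_one _
  have aux : ∀ s ∈ T, ∀ s' ∈ T, s ≠ s' → j s = j s' → ¬ Int.fract (β s') ≤ Int.fract (β s) := by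
    intro s hs s' hs' hne he hle
    have h1 := hsep s hs s' hs' hne
    have h2 : Int.fract (β s - β s') = Int.fract (β s) - Int.fract (β s') := by
      rw [Int.fract_eq_iff]
      refine ⟨by linarith, by linarith [Int.fract_lt_one (β s), Int.fract_nonneg (β s')],
        ⌊β s⌋ - ⌊β s'⌋, ?_⟩
      simp only [Int.fract]
      push_cast
      ring
    have h3 := hlo s'
    have h4 := hhi s
    rw [he] at h4
    linarith
  have hinj : Set.InjOn j T := by
    intro s hs s' hs' he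
    by_contra hne
    rcases le_total (Int.fract (β s')) (Int.fract (β s)) with h | h
    · exact aux s hs s' hs' hne he h
    · exact aux s' hs' s hs (Ne.symm hne) he.symm h
  have h1 : ∑ s ∈ T, 1 / Int.fract (β s) ≤ ∑ s ∈ T, 1 / δ * (1 / (j s : ℝ)) := by
    apply Finset.sum_le_sum
    intro s hs
    have : (1 : ℝ) ≤ j s := by exact_mod_cast hj1 s hs
    rw [one_div_mul_one_div]
    apply one_div_le_one_div_of_le (by positivity)
    linarith [hlo s]
  have h2 : ∑ s ∈ T, (1 / (j s : ℝ)) ≤ ∑ i ∈ Icc 1 J, (1 / (i : ℝ)) := by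
    rw [← Finset.sum_image (f := fun i : ℕ => 1 / (i : ℝ)) hinj]
    apply Finset.sum_le_sum_of_subset_of_nonneg
    · intro i hi
      obtain ⟨s, hs, rfl⟩ := Finset.mem_image.1 hi
      exact mem_Icc.2 ⟨hj1 s hs, hjJ s hs⟩
    · intro i _ _
      positivity
  have h3 : ∑ i ∈ Icc 1 J, (1 / (i : ℝ)) ≤ 1 + Real.log J := by
    have := harmonic_le_one_add_log J
    rw [harmonic_eq_sum_Icc] at this
    push_cast at this
    simpa using this
  have h1δ : 1 ≤ 1 / δ := by rw [le_div_iff₀ hδ]; linarith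
  have h4 : Real.log J ≤ Real.log (1 / δ) := by
    have : 1 ≤ J := Nat.le_floor (by simpa using h1δ)
    exact Real.log_le_log (by exact_mod_cast this) (Nat.floor_le (by positivity))
  rw [← Finset.mul_sum] at h1
  refine h1.trans (mul_le_mul_of_nonneg_left ?_ (by positivity))
  linarith

lemma dual_bound {R : Type} [DecidableEq R] (T : Finset R) (α : R → ℝ) (δ : ℝ) (hδ : 0 < δ)
    (hδ1 : δ ≤ 1) (hsep : ∀ s ∈ T, ∀ s' ∈ T, s ≠ s' → δ ≤ Int.fract (α s - α s'))
    (M : ℕ) (b : R → ℂ) :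
    ∑ n ∈ range M, ‖∑ r ∈ T, b r * ee (n * α r)‖ ^ 2
      ≤ (M + 1 / δ * (1 + Real.log (1 / δ))) * ∑ r ∈ T, ‖b r‖ ^ 2 := by
  set K : R → R → ℝ := fun r s => if r = s then M else
    1 / (2 * Int.fract (α r - α s)) + 1 / (2 * Int.fract (α s - α r)) with hK
  have hKs : ∀ r s, K r s = K s r := by
    intro r s
    simp only [hK, eq_comm (a := r)]
    split_ifs
    · rfl
    · ring
  have hK0 : ∀ r s, 0 ≤ K r s := by
    intro r s
    simp only [hK]
    have := Int.fract_nonneg (α r - α s)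
    have := Int.fract_nonneg (α s - α r)
    split_ifs <;> positivity
  have hKb : ∀ r ∈ T, ∀ s ∈ T, ‖∑ n ∈ range M, ee (n * (α r - α s))‖ ≤ K r s := by
    intro r hr s hs
    simp only [hK]
    split_ifs with h
    · subst h
      simp [ee_zero]
    · have := geom_bound (α r - α s) (by linarith [hsep r hr s hs h]) M
      rwa [neg_sub] at this
  have hrow : ∀ r ∈ T, ∑ s ∈ T, K r s ≤ M + 1 / δ * (1 + Real.log (1 / δ)) := by
    intro r hr
    rw [← Finset.add_sum_erase T _ hr]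
    have h1 : ∑ s ∈ T.erase r, K r s = (∑ s ∈ T.erase r, 1 / Int.fract (α r - α s)) / 2
        + (∑ s ∈ T.erase r, 1 / Int.fract (α s - α r)) / 2 := by
      rw [Finset.sum_div, Finset.sum_div, ← Finset.sum_add_distrib]
      apply Finset.sum_congr rfl
      intro s hs
      simp only [hK]
      rw [if_neg (Finset.ne_of_mem_erase hs).symm]
      ring
    have h2 := spaced_sum (T.erase r) (fun s => α r - α s) δ hδ hδ1
      (fun s hs => hsep r hr s (mem_of_mem_erase hs) (Finset.ne_of_mem_erase hs).symm)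
      (fun s hs s' hs' hne => by
        have := hsep s' (mem_of_mem_erase hs') s (mem_of_mem_erase hs) hne.symm
        rwa [show α r - α s - (α r - α s') = α s' - α s by ring])
    have h3 := spaced_sum (T.erase r) (fun s => α s - α r) δ hδ hδ1
      (fun s hs => hsep s (mem_of_mem_erase hs) r hr (Finset.ne_of_mem_erase hs))
      (fun s hs s' hs' hne => by
        have := hsep s (mem_of_mem_erase hs) s' (mem_of_mem_erase hs') hne
        rwa [show α s - α r - (α s' - α r) = α s - α s' by ring])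
    have h4 : K r r = M := by simp [hK]
    linarith
  have h1 : ((∑ n ∈ range M, ‖∑ r ∈ T, b r * ee (n * α r)‖ ^ 2 : ℝ) : ℂ)
      = ∑ r ∈ T, ∑ s ∈ T, b r * (starRingEnd ℂ) (b s) * ∑ n ∈ range M, ee (n * (α r - α s)) := by
    push_cast
    simp only [← Complex.mul_conj', map_sum, map_mul, conj_ee, Finset.sum_mul_sum]
    rw [Finset.sum_comm]
    apply Finset.sum_congr rfl
    intro r _
    rw [Finset.sum_comm]
    apply Finset.sum_congr rfl
    intro s _
    rw [Finset.mul_sum]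
    apply Finset.sum_congr rfl
    intro n _
    rw [show (n : ℝ) * (α r - α s) = n * α r + -(n * α s) by ring, ee_add]
    ring
  have h2 : ∑ n ∈ range M, ‖∑ r ∈ T, b r * ee (n * α r)‖ ^ 2
      ≤ ∑ r ∈ T, ∑ s ∈ T, ‖b r‖ * ‖b s‖ * K r s := by
    have h3 := congrArg norm h1
    rw [Complex.norm_real, Real.norm_eq_abs] at h3
    refine (le_abs_self _).trans (h3.le.trans ?_)
    refine (norm_sum_le _ _).trans (Finset.sum_le_sum fun r hr => ?_)
    refine (norm_sum_le _ _).trans (Finset.sum_le_sum fun s hs => ?_)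
    rw [norm_mul, norm_mul, RCLike.norm_conj]
    exact mul_le_mul_of_nonneg_left (hKb r hr s hs) (by positivity)
  have h3 : ∑ r ∈ T, ∑ s ∈ T, ‖b r‖ * ‖b s‖ * K r s
      ≤ ∑ r ∈ T, ∑ s ∈ T, (‖b r‖ ^ 2 * K r s / 2 + ‖b s‖ ^ 2 * K s r / 2) := by
    refine Finset.sum_le_sum fun r _ => Finset.sum_le_sum fun s _ => ?_
    rw [hKs s r]
    nlinarith [mul_nonneg (sq_nonneg (‖b r‖ - ‖b s‖)) (hK0 r s)]
  have h4 : ∑ r ∈ T, ∑ s ∈ T, (‖b r‖ ^ 2 * K r s / 2 + ‖b s‖ ^ 2 * K s r / 2)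
      = ∑ r ∈ T, ‖b r‖ ^ 2 * ∑ s ∈ T, K r s := by
    simp only [Finset.sum_add_distrib]
    rw [Finset.sum_comm (f := fun r s => ‖b s‖ ^ 2 * K s r / 2), ← Finset.sum_add_distrib]
    apply Finset.sum_congr rfl
    intro r _
    rw [← Finset.sum_add_distrib, Finset.mul_sum]
    apply Finset.sum_congr rfl
    intro s _
    ring
  refine h2.trans (h3.trans (h4.le.trans ?_))
  rw [Finset.mul_sum]
  refine Finset.sum_le_sum fun r hr => ?_
  rw [mul_comm]
  exact mul_le_mul_of_nonneg_right (hrow r hr) (by positivity)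

theorem spaced_large_sieve {R : Type} [DecidableEq R] (T : Finset R) (α : R → ℝ) (δ : ℝ)
    (hδ : 0 < δ) (hδ1 : δ ≤ 1) (hsep : ∀ s ∈ T, ∀ s' ∈ T, s ≠ s' → δ ≤ Int.fract (α s - α s'))
    (M : ℕ) (a : ℕ → ℂ) :
    ∑ r ∈ T, ‖∑ n ∈ range M, a n * ee (n * α r)‖ ^ 2
      ≤ (M + 1 / δ * (1 + Real.log (1 / δ))) * ∑ n ∈ range M, ‖a n‖ ^ 2 := by
  set S : R → ℂ := fun r => ∑ n ∈ range M, a n * ee (n * α r) with hS
  set Δ := (M + 1 / δ * (1 + Real.log (1 / δ))) with hΔ
  set t := ∑ r ∈ T, ‖S r‖ ^ 2 with ht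
  set A := ∑ n ∈ range M, ‖a n‖ ^ 2 with hA
  have hΔ0 : 0 ≤ Δ := by
    have h1δ : 1 ≤ 1 / δ := by rw [le_div_iff₀ hδ]; linarith
    have := Real.log_nonneg h1δ
    positivity
  have hA0 : 0 ≤ A := by positivity
  have ht0 : 0 ≤ t := by positivity
  have hd := dual_bound T α δ hδ hδ1 hsep M (fun r => (starRingEnd ℂ) (S r))
  simp only [RCLike.norm_conj] at hd
  have h1 : (t : ℂ) = ∑ n ∈ range M, a n * ∑ r ∈ T, (starRingEnd ℂ) (S r) * ee (n * α r) := by
    simp only [ht]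
    push_cast
    simp only [← Complex.conj_mul', Finset.mul_sum]
    rw [Finset.sum_comm]
    apply Finset.sum_congr rfl
    intro r _
    conv_lhs => rw [show (starRingEnd ℂ) (S r) * S r
      = (starRingEnd ℂ) (S r) * ∑ n ∈ range M, a n * ee (n * α r) from rfl, Finset.mul_sum]
    apply Finset.sum_congr rfl
    intro n _
    ring
  have h2 : t ≤ ∑ n ∈ range M, ‖a n‖ * ‖∑ r ∈ T, (starRingEnd ℂ) (S r) * ee (n * α r)‖ := by
    have h3 := congrArg norm h1
    rw [Complex.norm_real, Real.norm_eq_abs] at h3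
    refine (le_abs_self _).trans (h3.le.trans ?_)
    refine (norm_sum_le _ _).trans (Finset.sum_le_sum fun n _ => ?_)
    rw [norm_mul]
  have h3 := Finset.sum_mul_sq_le_sq_mul_sq (range M) (fun n => ‖a n‖)
    (fun n => ‖∑ r ∈ T, (starRingEnd ℂ) (S r) * ee (n * α r)‖)
  have h4 : t ^ 2 ≤ A * (Δ * t) :=
    (pow_le_pow_left₀ ht0 h2 2).trans (h3.trans (mul_le_mul_of_nonneg_left hd hA0))
  rcases ht0.eq_or_lt with h | h
  · rw [← h]; positivity
  · have : t * t ≤ (Δ * A) * t := by nlinarith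
    exact le_of_mul_le_mul_right this h

lemma farey_sep (Q q h q' h' : ℕ) (hq : q ≤ Q) (hq' : q' ≤ Q) (hh : h < q) (hh' : h' < q')
    (hc : h.Coprime q) (hc' : h'.Coprime q') (hne : ¬ (q = q' ∧ h = h')) :
    1 / (Q : ℝ) ^ 2 ≤ Int.fract ((h : ℝ) / q - (h' : ℝ) / q') := by
  have hq0 : (0 : ℝ) < q := by exact_mod_cast (by omega : 0 < q)
  have hq0' : (0 : ℝ) < q' := by exact_mod_cast (by omega : 0 < q')
  set x := (h : ℝ) / q - (h' : ℝ) / q' with hx
  set z : ℤ := (h : ℤ) * q' - h' * q - ⌊x⌋ * q * q' with hz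
  have h1 : Int.fract x * (q * q') = z := by
    simp only [Int.fract, hz]
    push_cast
    rw [sub_mul]
    congr 1
    · rw [hx]; field_simp
    · ring
  have hz0 : 0 ≤ z := by
    have : (0 : ℝ) ≤ z := by
      rw [← h1]; exact mul_nonneg (Int.fract_nonneg _) (by positivity)
    exact_mod_cast this
  have hz1 : z ≠ 0 := by
    intro h0
    have h2 : (q : ℤ) ∣ h * q' := ⟨h' + ⌊x⌋ * q', by linear_combination h0 - hz⟩
    have h3 : (q' : ℤ) ∣ h' * q := ⟨h - ⌊x⌋ * q, by linear_combination hz - h0⟩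
    have h4 : q ∣ q' := hc.symm.dvd_of_dvd_mul_left (by exact_mod_cast h2)
    have h5 : q' ∣ q := hc'.symm.dvd_of_dvd_mul_left (by exact_mod_cast h3)
    have h6 : q = q' := Nat.dvd_antisymm h4 h5
    subst h6
    apply hne
    refine ⟨rfl, ?_⟩
    have h7 : (q : ℤ) * (h - h' - ⌊x⌋ * q) = 0 := by linear_combination h0 - hz
    have h8 : (h : ℤ) - h' = q * ⌊x⌋ := by
      rcases mul_eq_zero.1 h7 with h9 | h9
      · omega
      · linear_combination h9
    have h9 : h ≡ h' [MOD q] := by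
      rw [Nat.modEq_iff_dvd]
      exact ⟨-⌊x⌋, by linear_combination -h8⟩
    exact Nat.ModEq.eq_of_lt_of_lt h9 hh hh'
  have h2 : (1 : ℝ) ≤ z := by exact_mod_cast (by omega : 1 ≤ z)
  have h3 : (q : ℝ) * q' ≤ (Q : ℝ) ^ 2 := by
    rw [sq]; gcongr
  rw [div_le_iff₀ (by nlinarith)]
  nlinarith [Int.fract_nonneg x]

/-- The energy of `a` on the reduced fractions with denominator `q`. -/
noncomputable def energy (M : ℕ) (a : ℕ → ℂ) (q : ℕ) : ℝ :=
  ∑ h ∈ (range q).filter (fun h => h.Coprime q), ‖∑ n ∈ range M, a n * ee (n * ((h : ℝ) / q))‖ ^ 2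

lemma energy_nonneg (M : ℕ) (a : ℕ → ℂ) (q : ℕ) : 0 ≤ energy M a q := by
  unfold energy; positivity

theorem large_sieve (Q M : ℕ) (hQ : 1 ≤ Q) (a : ℕ → ℂ) :
    ∑ q ∈ range (Q + 1), energy M a q
      ≤ (M + (Q : ℝ) ^ 2 * (1 + 2 * Real.log Q)) * ∑ n ∈ range M, ‖a n‖ ^ 2 := by
  have hQ' : (1 : ℝ) ≤ Q := by exact_mod_cast hQ
  have := spaced_large_sieve
    ((range (Q + 1)).sigma (fun q => (range q).filter (fun h => h.Coprime q)))
    (fun x => (x.2 : ℝ) / x.1) (1 / (Q : ℝ) ^ 2) (by positivity)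
    (by rw [div_le_one (by positivity)]; nlinarith)
    (by
      rintro ⟨q, h⟩ hs ⟨q', h'⟩ hs' hne
      simp only [Finset.mem_sigma, mem_range, mem_filter] at hs hs'
      apply farey_sep Q q h q' h' (by omega) (by omega) hs.2.1 hs'.2.1 hs.2.2 hs'.2.2
      rintro ⟨rfl, rfl⟩
      exact hne rfl) M a
  rw [Finset.sum_sigma] at this
  simp only [one_div, inv_inv, Real.log_pow] at this
  simpa [energy] using this

end Pool.Agent.Lib.LargeSieve
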