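import Pool.Agent.Lib.LargeSieve.Additive

/-! Projection on reduced fractions and bilinear forms with a kernel supported there. -/

namespace Pool.Agent.Lib.LargeSieve

open Finset Real

lemma ee_eq_one {x : ℝ} (h : ee x = 1) : ∃ n : ℤ, x = n := by
  simp only [ee] at h
  rw [Complex.exp_eq_one_iff] at h
  obtain ⟨n, hn⟩ := h
  refine ⟨n, ?_⟩
  have h2 : ((2 * π * x : ℝ) : ℂ) = ((2 * π * n : ℝ) : ℂ) := by
    apply mul_left_cancel₀ Complex.I_ne_zero
    rw [hn]
    push_cast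
    ring
  have h3 : 2 * π * x = 2 * π * n := by exact_mod_cast h2
  exact mul_left_cancel₀ (by positivity) h3

lemma orth (q : ℕ) (hq : 0 < q) (n x : ℕ) :
    ∑ h ∈ range q, ee (n * ((h : ℝ) / q)) * ee (-(x * ((h : ℝ) / q)))
      = if n ≡ x [MOD q] then (q : ℂ) else 0 := by
  have hq' : (0 : ℝ) < q := by exact_mod_cast hq
  have h1 : ∀ h : ℕ, ee (n * ((h : ℝ) / q)) * ee (-(x * ((h : ℝ) / q)))
      = ee (((n : ℝ) - x) / q) ^ h := by
    intro h
    rw [← ee_add, ← ee_nat_mul]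
    congr 1
    ring
  simp only [h1]
  split_ifs with h
  · obtain ⟨c, hc⟩ := (Nat.modEq_iff_dvd.1 h.symm)
    have h2 : ((n : ℝ) - x) / q = (c : ℤ) := by
      rw [div_eq_iff hq'.ne']
      have : ((n : ℤ) - x : ℝ) = ((q : ℤ) * c : ℤ) := by exact_mod_cast hc
      push_cast at this
      linarith
    simp [h2, ee_int]
  · have hne : ee (((n : ℝ) - x) / q) ≠ 1 := by
      intro h0
      obtain ⟨c, hc⟩ := ee_eq_one h0
      apply h
      apply Nat.ModEq.symm
      rw [Nat.modEq_iff_dvd]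
      refine ⟨c, ?_⟩
      rw [div_eq_iff hq'.ne'] at hc
      have : ((n : ℤ) - x : ℝ) = ((q : ℤ) * c : ℤ) := by push_cast; linarith
      exact_mod_cast this
    rw [geom_sum_eq hne, ← ee_nat_mul]
    have h2 : (q : ℝ) * (((n : ℝ) - x) / q) = ((n : ℤ) - x : ℤ) := by
      push_cast
      field_simp
    rw [h2, ee_int]
    simp

noncomputable def proj (M : ℕ) (a : ℕ → ℂ) (q x : ℕ) : ℂ :=
  (∑ h ∈ (range q).filter (fun h => h.Coprime q),
    (∑ n ∈ range M, a n * ee (n * ((h : ℝ) / q))) * ee (-(x * ((h : ℝ) / q)))) / q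

def IsNew (q : ℕ) (G : ℕ → ℂ) : Prop :=
  (∀ n, G n = G (n % q)) ∧
    ∀ h : ℕ, ¬ h.Coprime q → ∑ x ∈ range q, G x * ee (-(x * ((h : ℝ) / q))) = 0

lemma sum_eq_proj (M : ℕ) (a : ℕ → ℂ) (q : ℕ) (hq : 0 < q) (G : ℕ → ℂ) (hG : IsNew q G) :
    ∑ n ∈ range M, a n * G n = ∑ x ∈ range q, proj M a q x * G x := by
  have hq' : (q : ℂ) ≠ 0 := by exact_mod_cast hq.ne'
  set S : ℕ → ℂ := fun h => ∑ n ∈ range M, a n * ee (n * ((h : ℝ) / q)) with hS
  have h1 : ∑ x ∈ range q, proj M a q x * G x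
      = (∑ h ∈ (range q).filter (fun h => h.Coprime q),
          S h * ∑ x ∈ range q, G x * ee (-(x * ((h : ℝ) / q)))) / q := by
    simp only [proj, Finset.sum_div, Finset.sum_mul, Finset.mul_sum, hS]
    rw [Finset.sum_comm]
    refine Finset.sum_congr rfl fun h _ => ?_
    refine Finset.sum_congr rfl fun x _ => ?_
    refine Finset.sum_congr rfl fun n _ => ?_
    ring
  have h2 : ∑ h ∈ (range q).filter (fun h => h.Coprime q),
          S h * ∑ x ∈ range q, G x * ee (-(x * ((h : ℝ) / q)))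
      = ∑ h ∈ range q, S h * ∑ x ∈ range q, G x * ee (-(x * ((h : ℝ) / q))) := by
    apply Finset.sum_filter_of_ne
    intro h _ hne
    by_contra hc
    exact hne (by rw [hG.2 h hc, mul_zero])
  have h3 : ∑ h ∈ range q, S h * ∑ x ∈ range q, G x * ee (-(x * ((h : ℝ) / q)))
      = ∑ n ∈ range M, a n * ∑ x ∈ range q, G x *
          ∑ h ∈ range q, ee (n * ((h : ℝ) / q)) * ee (-(x * ((h : ℝ) / q))) := by
    simp only [hS, Finset.sum_mul, Finset.mul_sum]
    rw [Finset.sum_comm]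
    conv_rhs => rw [Finset.sum_comm]
    refine Finset.sum_congr rfl fun x _ => ?_
    rw [Finset.sum_comm]
    refine Finset.sum_congr rfl fun n _ => ?_
    refine Finset.sum_congr rfl fun h _ => ?_
    ring
  rw [h1, h2, h3, Finset.sum_div]
  refine Finset.sum_congr rfl fun n _ => ?_
  simp only [orth q hq]
  rw [Finset.sum_eq_single_of_mem (n % q) (mem_range.2 (Nat.mod_lt _ hq))]
  · rw [if_pos (Nat.mod_modEq n q).symm, ← hG.1 n]
    field_simp
  · intro x hx hne
    rw [if_neg, mul_zero]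
    intro h
    apply hne
    rw [h, Nat.mod_eq_of_lt (mem_range.1 hx)]

lemma parseval (M : ℕ) (a : ℕ → ℂ) (q : ℕ) (hq : 0 < q) :
    ∑ x ∈ range q, ‖proj M a q x‖ ^ 2 = energy M a q / q := by
  have hq' : (q : ℂ) ≠ 0 := by exact_mod_cast hq.ne'
  set S : ℕ → ℂ := fun h => ∑ n ∈ range M, a n * ee (n * ((h : ℝ) / q)) with hS
  set U := (range q).filter (fun h => h.Coprime q) with hU
  have h1 : ((∑ x ∈ range q, ‖proj M a q x‖ ^ 2 : ℝ) : ℂ)
      = (∑ h ∈ U, ∑ h' ∈ U, S h * (starRingEnd ℂ) (S h') *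
          ∑ x ∈ range q, ee (h' * ((x : ℝ) / q)) * ee (-(h * ((x : ℝ) / q)))) / q ^ 2 := by
    push_cast
    have h2 : ∀ x, proj M a q x = (∑ h ∈ U, S h * ee (-(x * ((h : ℝ) / q)))) / q := fun x => rfl
    simp only [← Complex.mul_conj', h2, map_div₀, map_sum, map_mul, conj_ee, map_natCast,
      div_mul_div_comm, Finset.sum_mul_sum, neg_neg]
    rw [← Finset.sum_div, sq]
    congr 1
    rw [Finset.sum_comm]
    refine Finset.sum_congr rfl fun h _ => ?_
    rw [Finset.sum_comm]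
    refine Finset.sum_congr rfl fun h' _ => ?_
    rw [Finset.mul_sum]
    refine Finset.sum_congr rfl fun x _ => ?_
    rw [show (x : ℝ) * ((h : ℝ) / q) = h * ((x : ℝ) / q) by ring,
      show (x : ℝ) * ((h' : ℝ) / q) = h' * ((x : ℝ) / q) by ring]
    ring
  have h2 : ((energy M a q / q : ℝ) : ℂ) = (∑ h ∈ U, S h * (starRingEnd ℂ) (S h)) / q := by
    simp only [energy, Complex.mul_conj']
    push_cast
    rfl
  apply Complex.ofReal_injective
  rw [h1, h2]
  simp only [orth q hq]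
  rw [sq, ← div_div]
  congr 1
  rw [Finset.sum_div]
  refine Finset.sum_congr rfl fun h hh => ?_
  rw [Finset.sum_eq_single_of_mem h hh]
  · rw [if_pos (Nat.ModEq.refl _)]
    field_simp
  · intro h' hh' hne
    rw [if_neg, mul_zero]
    intro he
    exact hne (Nat.ModEq.eq_of_lt_of_lt he (mem_range.1 (mem_filter.1 hh').1)
      (mem_range.1 (mem_filter.1 hh).1))

theorem bilinear_bound (P M : ℕ) (a b : ℕ → ℂ) (q : ℕ) (hq : 0 < q) (Ψ : ℕ → ℂ) (κ : ℝ)
    (hΨ : ∀ y, IsNew q (fun x => Ψ (x * y)))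
    (hκ : ∀ y, ∑ x ∈ range q, ‖Ψ (x * y)‖ ≤ κ) :
    ‖∑ n ∈ range P, ∑ l ∈ range M, a n * b l * Ψ (n * l)‖
      ≤ κ * (√(energy P a q) * √(energy M b q) / q) := by
  have hq' : (0 : ℝ) < q := by exact_mod_cast hq
  have hκ0 : 0 ≤ κ := le_trans (by positivity) (hκ 0)
  have h1 : ∑ n ∈ range P, ∑ l ∈ range M, a n * b l * Ψ (n * l)
      = ∑ x ∈ range q, ∑ y ∈ range q, proj P a q x * proj M b q y * Ψ (x * y) := by
    rw [Finset.sum_comm]
    have h2 : ∀ l, ∑ n ∈ range P, a n * b l * Ψ (n * l)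
        = ∑ x ∈ range q, proj P a q x * (b l * Ψ (l * x)) := by
      intro l
      have := sum_eq_proj P a q hq _ (hΨ l)
      calc _ = b l * ∑ n ∈ range P, a n * Ψ (n * l) := by
            rw [Finset.mul_sum]; exact Finset.sum_congr rfl fun n _ => by ring
        _ = _ := by
            rw [this, Finset.mul_sum]
            exact Finset.sum_congr rfl fun n _ => by rw [mul_comm n l]; ring
    simp only [h2]
    rw [Finset.sum_comm]
    refine Finset.sum_congr rfl fun x _ => ?_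
    rw [← Finset.mul_sum, sum_eq_proj M b q hq _ (hΨ x), Finset.mul_sum]
    exact Finset.sum_congr rfl fun y _ => by rw [mul_comm y x]; ring
  rw [h1]
  have h2 : ‖∑ x ∈ range q, ∑ y ∈ range q, proj P a q x * proj M b q y * Ψ (x * y)‖
      ≤ ∑ z ∈ range q ×ˢ range q, (‖proj P a q z.1‖ * √‖Ψ (z.1 * z.2)‖) *
          (‖proj M b q z.2‖ * √‖Ψ (z.1 * z.2)‖) := by
    rw [Finset.sum_product]
    refine (norm_sum_le _ _).trans (Finset.sum_le_sum fun x _ => ?_)
    refine (norm_sum_le _ _).trans (Finset.sum_le_sum fun y _ => ?_)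
    rw [norm_mul, norm_mul]
    apply le_of_eq
    conv_lhs => rw [← Real.mul_self_sqrt (norm_nonneg (Ψ (x * y)))]
    ring
  refine h2.trans ((Real.sum_mul_le_sqrt_mul_sqrt _ _ _).trans ?_)
  have h3 : ∑ z ∈ range q ×ˢ range q, (‖proj P a q z.1‖ * √‖Ψ (z.1 * z.2)‖) ^ 2
      ≤ κ * (energy P a q / q) := by
    rw [Finset.sum_product, ← parseval P a q hq, Finset.mul_sum]
    refine Finset.sum_le_sum fun x _ => ?_
    simp only [mul_pow, Real.sq_sqrt (norm_nonneg _), ← Finset.mul_sum]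
    rw [mul_comm κ]
    apply mul_le_mul_of_nonneg_left _ (by positivity)
    simpa only [mul_comm x] using hκ x
  have h4 : ∑ z ∈ range q ×ˢ range q, (‖proj M b q z.2‖ * √‖Ψ (z.1 * z.2)‖) ^ 2
      ≤ κ * (energy M b q / q) := by
    rw [Finset.sum_product_right, ← parseval M b q hq, Finset.mul_sum]
    refine Finset.sum_le_sum fun y _ => ?_
    simp only [mul_pow, Real.sq_sqrt (norm_nonneg _), ← Finset.mul_sum]
    rw [mul_comm κ]
    exact mul_le_mul_of_nonneg_left (hκ y) (by positivity)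
  calc _ ≤ √(κ * (energy P a q / q)) * √(κ * (energy M b q / q)) := by gcongr
    _ = _ := by
      rw [Real.sqrt_mul hκ0, Real.sqrt_mul hκ0, Real.sqrt_div' _ hq'.le, Real.sqrt_div' _ hq'.le]
      have h5 := Real.mul_self_sqrt hκ0
      have h6 := Real.mul_self_sqrt hq'.le
      have h7 : 0 < √(q : ℝ) := Real.sqrt_pos.2 hq'
      calc _ = (√κ * √κ) * (√(energy P a q) * √(energy M b q) / (√(q : ℝ) * √(q : ℝ))) := by
            field_simp
        _ = _ := by rw [h5, h6]

/-- Dyadic summation of the bilinear large sieve bound. -/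
theorem dyadic_bound (P M : ℕ) (a b : ℕ → ℂ) (ha : ∀ n, ‖a n‖ ≤ 1) (hb : ∀ n, ‖b n‖ ≤ 1)
    (F Q : ℕ) (hF : 1 ≤ F) (H l : ℝ) (hH : 0 ≤ H) (hl : 1 + 2 * Real.log (2 * Q) ≤ l)
    (h1 : (P : ℝ) * M ≤ H * F) (h2 : l * P * (P * M) ≤ H ^ 2) (h3 : l * M * (P * M) ≤ H ^ 2)
    (h4 : l ^ 2 * Q ^ 2 * (P * M) ≤ H ^ 2) :
    ∑ q ∈ Ioc F Q, √(energy P a q) * √(energy M b q) / q ≤ (Nat.log 2 Q + 1) * (10 * H) := by
  rcases Nat.lt_or_ge Q F with hQF | hQF
  · rw [Finset.Ioc_eq_empty (by omega)]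
    simp only [sum_empty]
    positivity
  have hQ1 : (1 : ℝ) ≤ Q := by exact_mod_cast (hF.trans hQF)
  have hl1 : 1 ≤ l := by
    have := Real.log_nonneg (show (1 : ℝ) ≤ 2 * Q by linarith)
    linarith
  rw [← Finset.sum_fiberwise_of_maps_to (g := fun q => Nat.log 2 q)
    (t := range (Nat.log 2 Q + 1))
    (fun q hq => mem_range.2 (Nat.lt_succ_of_le (Nat.log_mono_right (mem_Ioc.1 hq).2)))]
  have key : ∀ j ∈ range (Nat.log 2 Q + 1),
      ∑ q ∈ (Ioc F Q).filter (fun q => Nat.log 2 q = j),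
        √(energy P a q) * √(energy M b q) / q ≤ 10 * H := by
    intro j _
    rcases ((Ioc F Q).filter (fun q => Nat.log 2 q = j)).eq_empty_or_nonempty with he | ⟨q0, hq0⟩
    · rw [he]; simp only [sum_empty]; positivity
    set B := 2 ^ j with hB
    have hq0' := mem_filter.1 hq0
    have hq0'' := mem_Ioc.1 hq0'.1
    have hmem : ∀ q ∈ (Ioc F Q).filter (fun q => Nat.log 2 q = j), B ≤ q ∧ q < 2 * B := by
      intro q hq
      have hq' := mem_filter.1 hq
      have hq'' := mem_Ioc.1 hq'.1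
      rw [hB, ← hq'.2]
      refine ⟨Nat.pow_log_le_self 2 (by omega), ?_⟩
      have := Nat.lt_pow_succ_log_self (b := 2) (by norm_num) q
      rw [pow_succ] at this
      omega
    have hB1 : 1 ≤ B := Nat.one_le_two_pow
    have hBQ : B ≤ Q := (hmem q0 hq0).1.trans hq0''.2
    have hBF : F ≤ 2 * B := by have := (hmem q0 hq0).2; omega
    have hB1' : (1 : ℝ) ≤ B := by exact_mod_cast hB1
    have hBQ' : (B : ℝ) ≤ Q := by exact_mod_cast hBQ
    have hBF' : (F : ℝ) ≤ 2 * B := by exact_mod_cast hBF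
    have hls : ∀ (N : ℕ) (c : ℕ → ℂ), (∀ n, ‖c n‖ ≤ 1) →
        ∑ q ∈ (Ioc F Q).filter (fun q => Nat.log 2 q = j), energy N c q
          ≤ (N + 4 * B ^ 2 * l) * N := by
      intro N c hc
      have h5 := large_sieve (2 * B) N (by omega) c
      have h6 : ∑ n ∈ range N, ‖c n‖ ^ 2 ≤ N := by
        calc _ ≤ ∑ n ∈ range N, (1 : ℝ) := Finset.sum_le_sum fun n _ => by
              have := hc n
              have := norm_nonneg (c n)
              nlinarith
          _ = N := by simp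
      have h7 : 1 + 2 * Real.log ((2 * B : ℕ) : ℝ) ≤ l := by
        have : Real.log ((2 * B : ℕ) : ℝ) ≤ Real.log (2 * Q) :=
          Real.log_le_log (by push_cast; linarith) (by push_cast; linarith)
        linarith
      calc _ ≤ ∑ q ∈ range (2 * B + 1), energy N c q := by
            apply Finset.sum_le_sum_of_subset_of_nonneg
            · intro q hq
              have := (hmem q hq).2
              exact mem_range.2 (by omega)
            · intro q _ _
              exact energy_nonneg _ _ _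
        _ ≤ _ := h5
        _ ≤ (N + ((2 * B : ℕ) : ℝ) ^ 2 * l) * N := by gcongr
        _ = _ := by push_cast; ring
    have h5 : ∑ q ∈ (Ioc F Q).filter (fun q => Nat.log 2 q = j),
        √(energy P a q) * √(energy M b q) / q
        ≤ (∑ q ∈ (Ioc F Q).filter (fun q => Nat.log 2 q = j),
          √(energy P a q) * √(energy M b q)) / B := by
      rw [Finset.sum_div]
      refine Finset.sum_le_sum fun q hq => ?_
      have : (B : ℝ) ≤ q := by exact_mod_cast (hmem q hq).1
      gcongr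
    have h6 := Real.sum_sqrt_mul_sqrt_le ((Ioc F Q).filter (fun q => Nat.log 2 q = j))
      (fun q => energy_nonneg P a q) (fun q => energy_nonneg M b q)
    have h7 : √((P + 4 * B ^ 2 * l) * P) * √((M + 4 * B ^ 2 * l) * M) ≤ 10 * H * B := by
      rw [← Real.sqrt_mul (by positivity)]
      apply Real.sqrt_le_iff.2 ⟨by positivity, ?_⟩
      have e1 : ((P : ℝ) * M) ^ 2 ≤ 4 * (H ^ 2 * B ^ 2) := by
        have : (P : ℝ) * M ≤ H * (2 * B) := h1.trans (by gcongr)
        calc _ ≤ (H * (2 * B)) ^ 2 := by gcongr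
          _ = _ := by ring
      have e2 : l * P * (P * M) * B ^ 2 ≤ H ^ 2 * B ^ 2 := by gcongr
      have e3 : l * M * (P * M) * B ^ 2 ≤ H ^ 2 * B ^ 2 := by gcongr
      have e4 : l ^ 2 * B ^ 2 * (P * M) * B ^ 2 ≤ H ^ 2 * B ^ 2 := by
        gcongr
        refine le_trans ?_ h4
        gcongr
      have e5 : 0 ≤ H ^ 2 * B ^ 2 := by positivity
      nlinarith
    refine h5.trans ?_
    rw [div_le_iff₀ (by linarith)]
    refine h6.trans (le_trans ?_ h7)
    gcongr
    · exact hls P a ha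
    · exact hls M b hb
  calc _ ≤ ∑ j ∈ range (Nat.log 2 Q + 1), 10 * H := Finset.sum_le_sum key
    _ = _ := by simp

end Pool.Agent.Lib.LargeSieve
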